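import Pool.Agent.W759.TR.Defs

/-!
Project TR, part T7: invariant percolation on the 4-regular tree.
-/

set_option autoImplicit false

namespace Pool.Agent.W724.TR

open MeasureTheory ProbabilityTheory Set Filter
open scoped ENNReal Topology
open Pool.Agent.W759.TR

/-- the letters -/
abbrev SS : Type := Fin 2 × Bool

/-- the inverse letter -/
def ov (s : SS) : SS := (s.1, !s.2)

theorem ov_ov (s : SS) : ov (ov s) = s := by
  rcases s with ⟨i, b⟩
  simp [ov]

theorem gen_ov (s : SS) : gen s * gen (ov s) = 1 := gen_mul_gen s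

theorem ov_gen (s : SS) : gen (ov s) * gen s = 1 := by
  have := gen_ov (ov s)
  rwa [ov_ov] at this

theorem gen_inj {s s' : SS} (h : gen s = gen s') : s = s' := by
  have h1 := congrArg FreeGroup.toWord h
  simp only [gen, FreeGroup.toWord_mk, FreeGroup.reduce_singleton] at h1
  exact List.singleton_inj.1 h1

theorem gen_ne (s : SS) : gen s ≠ 1 := by
  intro h
  have h1 := congrArg FreeGroup.toWord h
  simp only [gen, FreeGroup.toWord_mk, FreeGroup.reduce_singleton, FreeGroup.toWord_one] at h1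
  exact List.cons_ne_nil _ _ h1

theorem adj_gen (v : FreeGroup (Fin 2)) (s : SS) : G4.Adj v (v * gen s) := by
  refine ⟨fun h => gen_ne s ?_, s, rfl⟩
  exact (mul_eq_left.1 h.symm)

/-- walks -/
def walk : FreeGroup (Fin 2) → List SS → ℕ → FreeGroup (Fin 2)
  | v, [], _ => v
  | v, _ :: _, 0 => v
  | v, s :: l, j + 1 => walk (v * gen s) l j

theorem walk_zero (v : FreeGroup (Fin 2)) (l : List SS) : walk v l 0 = v := by
  cases l <;> rfl

theorem walk_succ (v : FreeGroup (Fin 2)) (s : SS) (l : List SS) (j : ℕ) :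
    walk v (s :: l) (j + 1) = walk (v * gen s) l j := rfl

section perc

variable {Ω : Type} [MeasurableSpace Ω] (τ : FreeGroup (Fin 2) → Ω → Ω) (Good : Set Ω)

/-- the stripped sets -/
def AA : ℕ → Set Ω
  | 0 => Good
  | i + 1 => AA i ∩ ⋃ s : SS, ⋃ s' : SS, ⋃ _ : s ≠ s',
      (τ (gen s)) ⁻¹' (AA i) ∩ (τ (gen s')) ⁻¹' (AA i)

theorem AA_meas (hτ : ∀ g, Measurable (τ g)) (hG : MeasurableSet Good) (i : ℕ) :
    MeasurableSet (AA τ Good i) := by
  induction i with
  | zero => exact hG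
  | succ i ih =>
    refine ih.inter ?_
    refine MeasurableSet.iUnion fun s => MeasurableSet.iUnion fun s' => MeasurableSet.iUnion fun _ => ?_
    exact ((hτ _) ih).inter ((hτ _) ih)

omit [MeasurableSpace Ω] in
theorem AA_succ_sub (i : ℕ) : AA τ Good (i + 1) ⊆ AA τ Good i := inter_subset_left

omit [MeasurableSpace Ω] in
theorem AA_sub_good (i : ℕ) : AA τ Good i ⊆ Good := by
  induction i with
  | zero => exact subset_rfl
  | succ i ih => exact (AA_succ_sub τ Good i).trans ih

omit [MeasurableSpace Ω] in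
theorem path (h2 : ∀ g v y, τ g (τ v y) = τ (v * g) y) (i : ℕ) :
    ∀ (v : FreeGroup (Fin 2)) (sf : SS) (y : Ω), τ v y ∈ AA τ Good i →
    ∃ l : List SS, (∀ j, j < i → G4.Adj (walk v l j) (walk v l (j + 1))) ∧
      (∀ j, j + 2 ≤ i → walk v l (j + 2) ≠ walk v l j) ∧ (0 < i → walk v l 1 ≠ v * gen sf) ∧
      ∀ j ≤ i, τ (walk v l j) y ∈ Good := by
  induction i with
  | zero =>
    intro v sf y hy
    refine ⟨[], fun j hj => absurd hj (Nat.not_lt_zero j), fun j hj => by omega,
      fun h => absurd h (lt_irrefl 0), fun j hj => ?_⟩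
    exact hy
  | succ i ih =>
    intro v sf y hy
    obtain ⟨hy0, hy1⟩ := hy
    simp only [mem_iUnion] at hy1
    obtain ⟨s1, s2, hne, hs1, hs2⟩ := hy1
    obtain ⟨s, hs, hsf⟩ : ∃ s : SS, τ (gen s) (τ v y) ∈ AA τ Good i ∧ s ≠ sf := by
      by_cases h : s1 = sf
      · exact ⟨s2, hs2, fun h' => hne (h.trans h'.symm)⟩
      · exact ⟨s1, hs1, h⟩
    rw [h2] at hs
    obtain ⟨l, l1, l2, l3, l4⟩ := ih (v * gen s) (ov s) y hs
    refine ⟨s :: l, ?_, ?_, ?_, ?_⟩
    · intro j hj
      cases j with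
      | zero =>
        rw [walk_zero, walk_succ, walk_zero]
        exact adj_gen v s
      | succ j => exact l1 j (by omega)
    · intro j hj
      cases j with
      | zero =>
        rw [walk_zero, walk_succ]
        have := l3 (by omega)
        rw [mul_assoc, gen_ov, mul_one] at this
        exact this
      | succ j => exact l2 j (by omega)
    · intro _ h
      rw [walk_succ, walk_zero] at h
      exact hsf (gen_inj (mul_left_cancel h))
    · intro j hj
      cases j with
      | zero =>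
        rw [walk_zero]
        exact AA_sub_good τ Good i hy0
      | succ j => exact l4 j (by omega)

variable (P : Measure Ω) [IsProbabilityMeasure P]

/-- the number of edges -/
noncomputable def ee (i : ℕ) : ℝ := ∑ s : SS, P.real (AA τ Good i ∩ (τ (gen s)) ⁻¹' (AA τ Good i))

theorem disj_sum (hτ : ∀ g, Measurable (τ g)) (hG : MeasurableSet Good) (i : ℕ) :
    ∑ s : SS, P.real ((AA τ Good i \ AA τ Good (i + 1)) ∩ (τ (gen s)) ⁻¹' (AA τ Good i)) ≤
      P.real (AA τ Good i \ AA τ Good (i + 1)) := by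
  classical
  have hA := AA_meas τ Good hτ hG
  have hd : Set.PairwiseDisjoint (↑(Finset.univ : Finset SS) : Set SS)
      (fun s => (AA τ Good i \ AA τ Good (i + 1)) ∩ (τ (gen s)) ⁻¹' (AA τ Good i)) := by
    intro s _ s' _ hne
    rw [Function.onFun, Set.disjoint_left]
    rintro y ⟨⟨hy1, hy2⟩, hy3⟩ ⟨_, hy4⟩
    apply hy2
    refine ⟨hy1, ?_⟩
    simp only [mem_iUnion]
    exact ⟨s, s', hne, hy3, hy4⟩
  rw [← measureReal_biUnion_finset hd (fun s _ => ((hA i).diff (hA (i + 1))).inter ((hτ _) (hA i)))]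
  refine measureReal_mono ?_ (measure_ne_top P _)
  exact iUnion₂_subset fun s _ => inter_subset_left

theorem step (hP : ∀ g, MeasurePreserving (τ g) P P) (h2 : ∀ g v y, τ g (τ v y) = τ (v * g) y)
    (h1 : ∀ y, τ 1 y = y) (hG : MeasurableSet Good) (i : ℕ) :
    ee τ Good P i - 2 * P.real (AA τ Good i) ≤
      ee τ Good P (i + 1) - 2 * P.real (AA τ Good (i + 1)) := by
  have hτ : ∀ g, Measurable (τ g) := fun g => (hP g).measurable
  have hA := AA_meas τ Good hτ hG
  set D : Set Ω := AA τ Good i \ AA τ Good (i + 1) with hD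
  have hDm : MeasurableSet D := (hA i).diff (hA (i + 1))
  have hDr : P.real D = P.real (AA τ Good i) - P.real (AA τ Good (i + 1)) := by
    rw [hD, measureReal_sdiff (AA_succ_sub τ Good i) (hA (i + 1))]
  have hs1 := disj_sum τ Good P hτ hG i
  have hflip : ∀ s : SS, P.real (AA τ Good i ∩ (τ (gen s)) ⁻¹' D) =
      P.real (D ∩ (τ (gen (ov s))) ⁻¹' (AA τ Good i)) := by
    intro s
    have hm : MeasurableSet (AA τ Good i ∩ (τ (gen s)) ⁻¹' D) := (hA i).inter ((hτ _) hDm)
    have e1 := (hP (gen (ov s))).measureReal_preimage hm.nullMeasurableSet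
    rw [← e1]
    congr 1
    ext y
    simp only [mem_preimage, mem_inter_iff]
    rw [h2, ov_gen, h1]
    exact and_comm
  have hs2 : ∑ s : SS, P.real (AA τ Good i ∩ (τ (gen s)) ⁻¹' D) ≤ P.real D := by
    have : ∑ s : SS, P.real (AA τ Good i ∩ (τ (gen s)) ⁻¹' D) =
        ∑ s : SS, P.real (D ∩ (τ (gen s)) ⁻¹' (AA τ Good i)) := by
      simp only [hflip]
      exact Equiv.sum_comp (Function.Involutive.toPerm ov ov_ov)
        (fun s => P.real (D ∩ (τ (gen s)) ⁻¹' (AA τ Good i)))
    rw [this]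
    exact hs1
  have hpt : ∀ s : SS, P.real (AA τ Good i ∩ (τ (gen s)) ⁻¹' (AA τ Good i)) ≤
      P.real (AA τ Good (i + 1) ∩ (τ (gen s)) ⁻¹' (AA τ Good (i + 1))) +
      (P.real (D ∩ (τ (gen s)) ⁻¹' (AA τ Good i)) + P.real (AA τ Good i ∩ (τ (gen s)) ⁻¹' D)) := by
    intro s
    refine (measureReal_mono (s₂ := (AA τ Good (i + 1) ∩ (τ (gen s)) ⁻¹' (AA τ Good (i + 1))) ∪
      ((D ∩ (τ (gen s)) ⁻¹' (AA τ Good i)) ∪ (AA τ Good i ∩ (τ (gen s)) ⁻¹' D))) ?_).trans
      ((measureReal_union_le _ _).trans (by gcongr; exact measureReal_union_le _ _))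
    rintro y ⟨hy1, hy2⟩
    by_cases h3 : y ∈ AA τ Good (i + 1)
    · by_cases h4 : τ (gen s) y ∈ AA τ Good (i + 1)
      · exact Or.inl ⟨h3, h4⟩
      · exact Or.inr (Or.inr ⟨hy1, hy2, h4⟩)
    · exact Or.inr (Or.inl ⟨⟨hy1, h3⟩, hy2⟩)
  have hsum : ee τ Good P i ≤ ee τ Good P (i + 1) +
      (∑ s : SS, P.real (D ∩ (τ (gen s)) ⁻¹' (AA τ Good i)) +
        ∑ s : SS, P.real (AA τ Good i ∩ (τ (gen s)) ⁻¹' D)) := by
    unfold ee
    rw [← Finset.sum_add_distrib, ← Finset.sum_add_distrib]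
    exact Finset.sum_le_sum fun s _ => hpt s
  linarith

end perc

theorem t7 : T7 := by
  intro Ω _ P _ τ hP h2 h1 Good hG hbad N
  have hτ : ∀ g, Measurable (τ g) := fun g => (hP g).measurable
  have hA := AA_meas τ Good hτ hG
  have hp0 : 3 / 4 ≤ P.real Good := by
    have h3 : P.real Goodᶜ ≤ 1 / 4 := by
      have := ENNReal.toReal_mono (by norm_num) hbad
      simpa [Measure.real] using this
    have h4 : P.real Goodᶜ = 1 - P.real Good := by
      rw [measureReal_compl hG]
      simp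
    linarith
  have he0 : 1 / 2 ≤ ee τ Good P 0 - 2 * P.real (AA τ Good 0) := by
    have h5 : ∀ s : SS, 2 * P.real Good - 1 ≤
        P.real (AA τ Good 0 ∩ (τ (gen s)) ⁻¹' (AA τ Good 0)) := by
      intro s
      have e1 := measureReal_union_add_inter (μ := P) (s := Good) (t := (τ (gen s)) ⁻¹' Good)
        ((hτ _) hG)
      have e2 := (hP (gen s)).measureReal_preimage hG.nullMeasurableSet
      have e3 : P.real (Good ∪ (τ (gen s)) ⁻¹' Good) ≤ 1 := measureReal_le_one
      show _ ≤ P.real (Good ∩ (τ (gen s)) ⁻¹' Good)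
      linarith
    have h6 : ∑ _s : SS, (2 * P.real Good - 1) ≤ ee τ Good P 0 :=
      Finset.sum_le_sum fun s _ => h5 s
    have h7 : ∑ _s : SS, (2 * P.real Good - 1) = 4 * (2 * P.real Good - 1) := by
      rw [Finset.sum_const, Finset.card_univ]
      have : Fintype.card SS = 4 := by decide
      rw [this, nsmul_eq_mul]
      norm_num
    have h8 : P.real (AA τ Good 0) = P.real Good := rfl
    rw [h8]
    linarith
  have heN : ∀ i, 1 / 2 ≤ ee τ Good P i - 2 * P.real (AA τ Good i) := by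
    intro i
    induction i with
    | zero => exact he0
    | succ i ih => exact ih.trans (step τ Good P hP h2 h1 hG i)
  have hle : ee τ Good P N ≤ 4 * P.real (AA τ Good N) := by
    have h9 : ee τ Good P N ≤ ∑ _s : SS, P.real (AA τ Good N) :=
      Finset.sum_le_sum fun s _ => measureReal_mono inter_subset_left
    rw [Finset.sum_const, Finset.card_univ] at h9
    have : Fintype.card SS = 4 := by decide
    rw [this, nsmul_eq_mul] at h9
    exact_mod_cast h9
  have hpos : 0 < P.real (AA τ Good N) := by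
    have := heN N
    linarith
  have hpos' : P (AA τ Good N) ≠ 0 := by
    intro h
    rw [Measure.real, h] at hpos
    simp at hpos
  -- choose the path
  let Γ : Type := {l : List SS // (∀ j, j < N → G4.Adj (walk 1 l j) (walk 1 l (j + 1))) ∧
      (∀ j, j + 2 ≤ N → walk 1 l (j + 2) ≠ walk 1 l j)}
  have hcount : Countable Γ := Subtype.countable
  have hcov : AA τ Good N ⊆ ⋃ l : Γ, {y | ∀ j ≤ N, τ (walk 1 l.1 j) y ∈ Good} := by
    intro y hy
    have hy' : τ 1 y ∈ AA τ Good N := by rwa [h1]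
    obtain ⟨l, l1, l2, _, l4⟩ := path τ Good h2 N 1 (0, true) y hy'
    exact mem_iUnion.2 ⟨⟨l, l1, l2⟩, l4⟩
  have hne : P (⋃ l : Γ, {y | ∀ j ≤ N, τ (walk 1 l.1 j) y ∈ Good}) ≠ 0 := by
    intro h
    exact hpos' (measure_mono_null hcov h)
  obtain ⟨l, hl⟩ := exists_measure_pos_of_not_measure_iUnion_null hne
  exact ⟨walk 1 l.1, l.2.1, l.2.2, hl⟩

end Pool.Agent.W724.TR

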